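import Mathlib

/-!
# MP_a0e11f_co: two-sided gamma positivity over even and odd elements of type D

Signed permutations of `±1,...,±n` are stored as pairs `(σ, ε)`: a permutation `σ` of `Fin n` and a
sign vector `ε`; the window entry at position `i` is `± (σ i + 1)`, negative when `ε i` is true.
-/

namespace Pool.Agent.Results.MP_a0e11f_co.FailsAtTwo

/-- Signed permutations, as a permutation together with a sign vector. -/
abbrev SP (n : ℕ) := Equiv.Perm (Fin n) × (Fin n → Bool)

/-- The window entry `π (i + 1)` (positions counted from `0` here). -/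
def val {n : ℕ} (π : SP n) (i : Fin n) : ℤ :=
  if π.2 i then -((π.1 i : ℕ) + 1 : ℤ) else ((π.1 i : ℕ) + 1 : ℤ)

/-- The inverse signed permutation. -/
def inv {n : ℕ} (π : SP n) : SP n := (π.1⁻¹, fun j => π.2 (π.1⁻¹ j))

/-- `π_k` for a position `1 ≤ k ≤ n` (and `0` outside this range). -/
def entry {n : ℕ} (π : SP n) (k : ℕ) : ℤ :=
  if h : 1 ≤ k ∧ k ≤ n then val π ⟨k - 1, by omega⟩ else 0

/-- The extended window: `π_0 = -π_2`, and `π_k` for `k ≥ 1`. -/
def ext {n : ℕ} (π : SP n) (k : ℕ) : ℤ := if k = 0 then -entry π 2 else entry π k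

/-- Type D descents: the number of `i` in `{0, ..., n-1}` with `π_i > π_{i+1}`. -/
def des {n : ℕ} (π : SP n) : ℕ :=
  ((Finset.range n).filter (fun i => ext π (i + 1) < ext π i)).card

/-- Type D descents of the inverse. -/
def ides {n : ℕ} (π : SP n) : ℕ := des (inv π)

/-- Type D length. -/
def len {n : ℕ} (π : SP n) : ℕ :=
  (Finset.univ.filter (fun p : Fin n × Fin n => p.1 < p.2 ∧ val π p.2 < val π p.1)).card +
  (Finset.univ.filter (fun p : Fin n × Fin n => p.1 < p.2 ∧ val π p.1 + val π p.2 < 0)).card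

/-- Elements of type `D_n`: an even number of negative entries. -/
def isD {n : ℕ} (π : SP n) : Prop := Even ((Finset.univ.filter (fun i => π.2 i = true)).card)

instance {n : ℕ} (π : SP n) : Decidable (isD π) := by unfold isD; infer_instance

/-- Elements of `D_n` whose length has the parity of `par`. -/
def part (n par : ℕ) : Finset (SP n) :=
  Finset.univ.filter (fun π => isD π ∧ len π % 2 = par)

open MvPolynomial in
/-- `TSD_n^+` (for `par = 0`) and `TSD_n^-` (for `par = 1`); `X 0` is `s` and `X 1` is `t`. -/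
noncomputable def TSD (n par : ℕ) : MvPolynomial (Fin 2) ℝ :=
  ∑ π ∈ part n par, X 1 ^ des π * X 0 ^ ides π

open MvPolynomial in
/-- `f` has a nonnegative two-sided gamma expansion of degree `n`. -/
def GammaPos (n : ℕ) (f : MvPolynomial (Fin 2) ℝ) : Prop :=
  ∃ γ : ℕ → ℕ → ℝ, (∀ i j, 0 ≤ γ i j) ∧
    f = ∑ p ∈ (Finset.range (n + 1) ×ˢ Finset.range (n + 1)).filter
          (fun p => 2 * p.1 + p.2 ≤ n),
        C (γ p.1 p.2) * (X 0 * X 1) ^ p.1 * (X 0 + X 1) ^ p.2 *
          (1 + X 0 * X 1) ^ (n - 2 * p.1 - p.2)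

/-- The even elements of `D_2` have `(des, ides)` equal to `(0,0)` and `(2,2)`. -/
lemma eval_plus : MvPolynomial.eval (![1, -1] : Fin 2 → ℝ) (TSD 2 0) = 2 := by
  have h : ∀ π ∈ part 2 0, des π % 2 = 0 := by decide
  have hc : (part 2 0).card = 2 := by decide
  unfold TSD
  rw [map_sum]
  have : ∀ π ∈ part 2 0, MvPolynomial.eval (![1, -1] : Fin 2 → ℝ)
      (MvPolynomial.X 1 ^ des π * MvPolynomial.X 0 ^ ides π) = 1 := by
    intro π hπ
    have h2 : Even (des π) := Nat.even_iff.mpr (h π hπ)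
    simp [h2.neg_one_pow]
  rw [Finset.sum_congr rfl this]
  simp [hc]

/-- The two-sided gamma positivity statement fails at `n = 2` for the even elements. -/
theorem result :
    ¬ GammaPos 2 (TSD 2 0) ∧
    ¬ (∀ n : ℕ, 2 ≤ n → GammaPos n (TSD n 0) ∧ GammaPos n (TSD n 1)) := by
  have key : ¬ GammaPos 2 (TSD 2 0) := by
    rintro ⟨γ, hγ, h⟩
    have h1 := congrArg (MvPolynomial.eval (![1, -1] : Fin 2 → ℝ)) h
    rw [eval_plus, map_sum] at h1
    have hs : (Finset.range (2 + 1) ×ˢ Finset.range (2 + 1)).filter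
          (fun p => 2 * p.1 + p.2 ≤ 2) = ({(0, 0), (0, 1), (0, 2), (1, 0)} : Finset (ℕ × ℕ)) := by
      decide
    rw [hs] at h1
    simp at h1
    have := hγ 1 0
    linarith
  exact ⟨key, fun H => key (H 2 le_rfl).1⟩

end Pool.Agent.Results.MP_a0e11f_co.FailsAtTwo
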